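import Pool.Agent.H59.HR.Stm

/-!
# HR part TH: `theta` maps `fam n c` into the vanishing ideal of the twisted arc plus `ρ`
-/

set_option linter.all false

open Polynomial

namespace HR

namespace THaux

/-- `c(t, x) ↦ c(t^N, t^(-α) x)` -/
noncomputable def psi (α N : ℕ) : LP[X] →+* LP[X] :=
  Polynomial.eval₂RingHom ((Polynomial.C : LP →+* LP[X]).comp (pw N))
    (Polynomial.C (LaurentPolynomial.T (-(α : ℤ))) * Polynomial.X)

theorem psi_C (α N : ℕ) (q : LP) : psi α N (Polynomial.C q) = Polynomial.C (pw N q) := by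
  simp [psi]

theorem psi_X (α N : ℕ) : psi α N Polynomial.X
    = Polynomial.C (LaurentPolynomial.T (-(α : ℤ))) * Polynomial.X := by
  simp [psi]

theorem psi_tw (α β N : ℕ) (c : LP[X]) : psi α N c
    = Polynomial.C (LaurentPolynomial.T (-(β : ℤ))) * tw α β N c := by
  rw [psi, tw, Polynomial.coe_eval₂RingHom, Polynomial.eval₂_eq_sum_range, Finset.mul_sum]
  refine Finset.sum_congr rfl fun k _ => ?_
  rw [RingHom.comp_apply, mul_pow, ← map_pow, LaurentPolynomial.T_pow,
    ← Polynomial.C_mul_X_pow_eq_monomial, ← mul_assoc, ← mul_assoc, ← map_mul, ← map_mul]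
  congr 2
  rw [← mul_assoc, ← LaurentPolynomial.T_add, mul_comm]
  congr 2
  ring

theorem theta_X0 (α β N : ℕ) (ρ : LP[X]) : theta α β N ρ (MvPolynomial.X 0)
    = MvPolynomial.C (LaurentPolynomial.T (-(α : ℤ))) * MvPolynomial.X 0 := by
  simp [theta]

theorem theta_X1 (α β N : ℕ) (ρ : LP[X]) : theta α β N ρ (MvPolynomial.X 1)
    = MvPolynomial.C (LaurentPolynomial.T (-(β : ℤ))) *
        (MvPolynomial.X 1 - Polynomial.aeval (MvPolynomial.X 0 : P2 LP) ρ) := by
  simp [theta]

theorem theta_C (α β N : ℕ) (ρ : LP[X]) (q : ℂ[X]) : theta α β N ρ (MvPolynomial.C q)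
    = MvPolynomial.C (pw N (Polynomial.toLaurent q)) := by
  simp [theta]

theorem ev_mul' {A : Type*} [CommRing A] (a : A[X]) (F G : P2 A) :
    ev a (F * G) = ev a F * ev a G := map_mul (ev a) F G

theorem ev_add' {A : Type*} [CommRing A] (a : A[X]) (F G : P2 A) :
    ev a (F + G) = ev a F + ev a G := map_add (ev a) F G

theorem ev_sub' {A : Type*} [CommRing A] (a : A[X]) (F G : P2 A) :
    ev a (F - G) = ev a F - ev a G := map_sub (ev a) F G

theorem key0 (α β N : ℕ) (c ρ : LP[X]) :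
    ev (tw α β N c + ρ) (theta α β N ρ (MvPolynomial.X 0))
      = psi α N (ev c (MvPolynomial.X 0)) := by
  rw [ev_X0, psi_X, theta_X0, ev_mul', ev_C, ev_X0]

theorem key1 (α β N : ℕ) (c ρ : LP[X]) :
    ev (tw α β N c + ρ) (theta α β N ρ (MvPolynomial.X 1))
      = psi α N (ev c (MvPolynomial.X 1)) := by
  have h1 : ev (tw α β N c + ρ) (Polynomial.aeval (MvPolynomial.X 0 : P2 LP) ρ) = ρ := by
    rw [← Polynomial.aeval_algHom_apply, ev_X0]
    exact Polynomial.aeval_X_left_apply ρ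
  rw [ev_X1, psi_tw α β N c, theta_X1, ev_mul', ev_C, ev_sub', ev_X1, h1]
  ring

theorem key (α β N : ℕ) (c ρ : LP[X]) (F : P2 ℂ[X]) :
    ev (tw α β N c + ρ) (theta α β N ρ F)
      = psi α N (ev c (MvPolynomial.map (Polynomial.toLaurent : ℂ[X] →+* LP) F)) := by
  induction F using MvPolynomial.induction_on with
  | C q =>
    rw [theta_C, MvPolynomial.map_C, ev_C, ev_C, psi_C]
  | add p q hp hq =>
    rw [RingHom.map_add, RingHom.map_add, ev_add', ev_add', RingHom.map_add, hp, hq]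
  | mul_X p i hp =>
    have hi : i = 0 ∨ i = 1 := by omega
    have e3 : MvPolynomial.map (Polynomial.toLaurent : ℂ[X] →+* LP) (p * MvPolynomial.X i)
        = MvPolynomial.map (Polynomial.toLaurent : ℂ[X] →+* LP) p * MvPolynomial.X i := by
      rw [RingHom.map_mul, MvPolynomial.map_X]
    rw [RingHom.map_mul, ev_mul', e3, ev_mul', hp, RingHom.map_mul]
    rcases hi with rfl | rfl
    · rw [key0]
    · rw [key1]

end THaux

theorem TH : S_TH := by
  intro n α β N c ρ F hF
  rw [mem_fam] at hF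
  obtain ⟨G, hG⟩ := hF
  rw [mem_curv, THaux.key, hG, map_mul, map_pow, THaux.psi_X, mul_pow]
  exact ⟨Polynomial.C (LaurentPolynomial.T (-(α : ℤ))) ^ n * THaux.psi α N G, by ring⟩

end HR
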