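import Pool.Agent.H59.HR.Stm

/-!
# HR parts TH and TW (twist lemma)
-/

set_option linter.all false

open Polynomial

namespace HR

namespace TWaux

/-- `G` is `T^M` times an element of `C[t][x,y]` -/
def Dv (M : ℤ) (G : P2 LP) : Prop :=
  ∃ H : P2 ℂ[X], G = MvPolynomial.C (LaurentPolynomial.T M) *
    MvPolynomial.map (Polynomial.toLaurent : ℂ[X] →+* LP) H

theorem Dv.add {M : ℤ} {G G' : P2 LP} (h : Dv M G) (h' : Dv M G') : Dv M (G + G') := by
  obtain ⟨H, rfl⟩ := h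
  obtain ⟨H', rfl⟩ := h'
  exact ⟨H + H', by rw [map_add]; ring⟩

theorem Dv.neg {M : ℤ} {G : P2 LP} (h : Dv M G) : Dv M (-G) := by
  obtain ⟨H, rfl⟩ := h
  exact ⟨-H, by rw [map_neg]; ring⟩

theorem Dv.zero (M : ℤ) : Dv M 0 := ⟨0, by simp⟩

theorem Dv.mul {M M' : ℤ} {G G' : P2 LP} (h : Dv M G) (h' : Dv M' G') :
    Dv (M + M') (G * G') := by
  obtain ⟨H, rfl⟩ := h
  obtain ⟨H', rfl⟩ := h'
  refine ⟨H * H', ?_⟩
  rw [map_mul, LaurentPolynomial.T_add, map_mul]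
  ring

theorem Dv.of_map (H : P2 ℂ[X]) :
    Dv 0 (MvPolynomial.map (Polynomial.toLaurent : ℂ[X] →+* LP) H) := ⟨H, by simp⟩

theorem Dv.T (M : ℤ) : Dv M (MvPolynomial.C (LaurentPolynomial.T M)) := ⟨1, by simp⟩

theorem Dv.X (i : Fin 2) : Dv 0 (MvPolynomial.X i) := ⟨MvPolynomial.X i, by simp⟩

theorem Dv.one : Dv 0 1 := ⟨1, by simp⟩

theorem Dv.natCast (k : ℕ) : Dv 0 (k : P2 LP) := ⟨k, by simp⟩

theorem Dv.X_pow (i : Fin 2) (k : ℕ) : Dv 0 (MvPolynomial.X i ^ k) :=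
  ⟨MvPolynomial.X i ^ k, by simp⟩

theorem Dv.mono {M M' : ℤ} {G : P2 LP} (h : Dv M G) (hM : M' ≤ M) : Dv M' G := by
  obtain ⟨k, rfl⟩ : ∃ k : ℕ, M = M' + k := ⟨(M - M').toNat, by omega⟩
  obtain ⟨H, rfl⟩ := h
  refine ⟨MvPolynomial.C (Polynomial.X ^ k) * H, ?_⟩
  rw [map_mul, MvPolynomial.map_C, Polynomial.toLaurent_X_pow, LaurentPolynomial.T_add, map_mul]
  ring

theorem Dv.sum {ι : Type*} (s : Finset ι) {M : ℤ} {f : ι → P2 LP} (h : ∀ i ∈ s, Dv M (f i)) :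
    Dv M (∑ i ∈ s, f i) := by
  classical
  induction s using Finset.induction_on with
  | empty => simpa using Dv.zero M
  | insert a s ha ih =>
    rw [Finset.sum_insert ha]
    exact (h a (Finset.mem_insert_self _ _)).add
      (ih fun i hi => h i (Finset.mem_insert_of_mem hi))

/-- `g` is congruent to an element of the ideal up to order `M` -/
def Nr (I : Ideal (P2 LP)) (M : ℤ) (g : P2 LP) : Prop := ∃ G ∈ I, Dv M (G - g)

theorem Nr.add {I : Ideal (P2 LP)} {M : ℤ} {g g' : P2 LP} (h : Nr I M g) (h' : Nr I M g') :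
    Nr I M (g + g') := by
  obtain ⟨G, hG, hd⟩ := h
  obtain ⟨G', hG', hd'⟩ := h'
  refine ⟨G + G', I.add_mem hG hG', ?_⟩
  have := hd.add hd'
  convert this using 1
  ring

theorem Nr.zero (I : Ideal (P2 LP)) (M : ℤ) : Nr I M 0 := ⟨0, I.zero_mem, by simpa using Dv.zero M⟩

theorem Nr.mono {I : Ideal (P2 LP)} {M M' : ℤ} {g : P2 LP} (h : Nr I M g) (hM : M' ≤ M) :
    Nr I M' g := by
  obtain ⟨G, hG, hd⟩ := h
  exact ⟨G, hG, hd.mono hM⟩

theorem Nr.mul {I : Ideal (P2 LP)} {M j : ℤ} {g h : P2 LP} (hh : Dv j h) (hg : Nr I M g) :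
    Nr I (j + M) (h * g) := by
  obtain ⟨G, hG, hd⟩ := hg
  refine ⟨h * G, I.mul_mem_left _ hG, ?_⟩
  have := hh.mul hd
  convert this using 1
  ring

theorem Nr.sum {I : Ideal (P2 LP)} {ι : Type*} (s : Finset ι) {M : ℤ} {f : ι → P2 LP}
    (h : ∀ i ∈ s, Nr I M (f i)) : Nr I M (∑ i ∈ s, f i) := by
  classical
  induction s using Finset.induction_on with
  | empty => simpa using Nr.zero I M
  | insert a s ha ih =>
    rw [Finset.sum_insert ha]
    exact (h a (Finset.mem_insert_self _ _)).add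
      (ih fun i hi => h i (Finset.mem_insert_of_mem hi))

/-- poles of order at most `D` -/
def Pole (D : ℕ) (ρ : LP[X]) : Prop :=
  ∀ k, ∃ q : ℂ[X], LaurentPolynomial.T (D : ℤ) * ρ.coeff k = Polynomial.toLaurent q

theorem Pole.lift {D : ℕ} {ρ : LP[X]} (h : Pole D ρ) :
    ∃ σ : ℂ[X][X], Polynomial.C (LaurentPolynomial.T (D : ℤ)) * ρ
      = σ.map (Polynomial.toLaurent : ℂ[X] →+* LP) := by
  have : Polynomial.C (LaurentPolynomial.T (D : ℤ)) * ρ
      ∈ Polynomial.lifts (Polynomial.toLaurent : ℂ[X] →+* LP) := by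
    rw [Polynomial.lifts_iff_coeff_lifts]
    intro k
    obtain ⟨q, hq⟩ := h k
    exact ⟨q, by rw [Polynomial.coeff_C_mul, hq]⟩
  rw [Polynomial.mem_lifts] at this
  obtain ⟨σ, hσ⟩ := this
  exact ⟨σ, hσ.symm⟩

theorem Pole.pow {D : ℕ} {ρ : LP[X]} (h : Pole D ρ) (i : ℕ) : Pole (D * i) (ρ ^ i) := by
  obtain ⟨σ, hσ⟩ := h.lift
  intro k
  refine ⟨(σ ^ i).coeff k, ?_⟩
  have h1 := congrArg (fun p => (p ^ i).coeff k) hσ
  simp only [mul_pow, ← map_pow, ← Polynomial.map_pow] at h1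
  rw [Polynomial.coeff_C_mul, Polynomial.coeff_map, LaurentPolynomial.T_pow] at h1
  rw [← h1]
  congr 2
  push_cast; ring

theorem Pole.dv {D : ℕ} {ρ : LP[X]} (h : Pole D ρ) (k : ℕ) :
    Dv (-(D : ℤ)) (MvPolynomial.C (ρ.coeff k)) := by
  obtain ⟨q, hq⟩ := h k
  refine ⟨MvPolynomial.C q, ?_⟩
  rw [MvPolynomial.map_C]
  change _ = _ * MvPolynomial.C (Polynomial.toLaurent q)
  rw [← hq, ← map_mul, ← mul_assoc, ← LaurentPolynomial.T_add]
  simp

theorem aeval_sum (ρ : LP[X]) : Polynomial.aeval (MvPolynomial.X 0 : P2 LP) ρ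
    = ∑ e ∈ Finset.range (ρ.natDegree + 1),
      MvPolynomial.C (ρ.coeff e) * MvPolynomial.X 0 ^ e := by
  rw [Polynomial.aeval_eq_sum_range]
  refine Finset.sum_congr rfl fun e _ => ?_
  rw [MvPolynomial.smul_eq_C_mul]

theorem Pole.dvR {D : ℕ} {ρ : LP[X]} (h : Pole D ρ) :
    Dv (-(D : ℤ)) (Polynomial.aeval (MvPolynomial.X 0 : P2 LP) ρ) := by
  rw [aeval_sum]
  refine Dv.sum _ fun e _ => ?_
  have := (h.dv e).mul (Dv.X_pow 0 e)
  simpa using this

/-- the monomial `x^p (y - ρ)^q` -/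
noncomputable def mu (ρ : LP[X]) (p : ℕ × ℕ) : P2 LP :=
  MvPolynomial.X 0 ^ p.1 *
    (MvPolynomial.X 1 - Polynomial.aeval (MvPolynomial.X 0 : P2 LP) ρ) ^ p.2

theorem theta_X0 (α β N : ℕ) (ρ : LP[X]) : theta α β N ρ (MvPolynomial.X 0)
    = MvPolynomial.C (LaurentPolynomial.T (-(α : ℤ))) * MvPolynomial.X 0 := by
  simp [theta]

theorem theta_X1 (α β N : ℕ) (ρ : LP[X]) : theta α β N ρ (MvPolynomial.X 1)
    = MvPolynomial.C (LaurentPolynomial.T (-(β : ℤ))) *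
        (MvPolynomial.X 1 - Polynomial.aeval (MvPolynomial.X 0 : P2 LP) ρ) := by
  simp [theta]

theorem theta_C (α β N : ℕ) (ρ : LP[X]) (q : ℂ[X]) : theta α β N ρ (MvPolynomial.C q)
    = MvPolynomial.C (pw N (Polynomial.toLaurent q)) := by
  simp [theta]

theorem pw_T (N : ℕ) (e : ℤ) : pw N (LaurentPolynomial.T e) = LaurentPolynomial.T (N * e) := by
  have h1 : pw N (LaurentPolynomial.T e) = ((Tu (N : ℤ) ^ e : LPˣ) : LP) := by
    simp [pw]
  rw [h1]
  have h2 : ∀ e : ℤ, (Tu (N : ℤ) ^ e : LPˣ) = Tu (N * e) := by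
    intro e
    induction e using Int.induction_on with
    | zero => ext1; simp [Tu]
    | succ i ih =>
      rw [zpow_add_one, ih]
      ext1
      simp only [Tu, Units.val_mul]
      rw [← LaurentPolynomial.T_add, mul_add, mul_one]
    | pred i ih =>
      rw [zpow_sub_one, ih]
      ext1
      simp only [Tu, Units.val_mul, Units.inv_mk, Units.val_mk]
      rw [← LaurentPolynomial.T_add]
      congr 1
      try ring
  rw [h2]
  rfl

theorem pw_C (N : ℕ) (z : ℂ) : pw N (LaurentPolynomial.C z) = LaurentPolynomial.C z := by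
  simp [pw]

theorem pw_poly (N : ℕ) (q : ℂ[X]) :
    ∃ q' : ℂ[X], pw N (Polynomial.toLaurent q) = Polynomial.toLaurent q' := by
  induction q using Polynomial.induction_on' with
  | add p q hp hq =>
    obtain ⟨p', hp'⟩ := hp
    obtain ⟨q', hq'⟩ := hq
    exact ⟨p' + q', by rw [map_add, map_add, hp', hq', map_add]⟩
  | monomial k z =>
    refine ⟨Polynomial.monomial (N * k) z, ?_⟩
    rw [Polynomial.toLaurent_C_mul_T, Polynomial.toLaurent_C_mul_T, map_mul, pw_C, pw_T]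
    push_cast
    try rfl

theorem theta_mon (α β N : ℕ) (ρ : LP[X]) (q : ℕ × ℕ) : theta α β N ρ (mon ℂ[X] q)
    = MvPolynomial.C (LaurentPolynomial.T (-((α * q.1 + β * q.2 : ℕ) : ℤ))) * mu ρ q := by
  rw [mon, map_mul, map_pow, map_pow, theta_X0, theta_X1, mu, mul_pow, mul_pow, ← map_pow,
    ← map_pow, LaurentPolynomial.T_pow, LaurentPolynomial.T_pow]
  have : LaurentPolynomial.T (-((α * q.1 + β * q.2 : ℕ) : ℤ))
      = (LaurentPolynomial.T ((q.1 : ℤ) * -(α : ℤ)) * LaurentPolynomial.T ((q.2 : ℤ) * -(β : ℤ)) : LP) := by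
    rw [← LaurentPolynomial.T_add]
    congr 1
    push_cast
    ring
  rw [this, map_mul]
  ring

theorem theta_Dv (α β D : ℕ) (H : P2 ℂ[X]) : ∃ K : ℕ, ∀ (N : ℕ) (ρ : LP[X]), Pole D ρ →
    Dv (-(K : ℤ)) (theta α β N ρ H) := by
  induction H using MvPolynomial.induction_on with
  | C q =>
    refine ⟨0, fun N ρ hρ => ?_⟩
    rw [theta_C]
    obtain ⟨q', hq'⟩ := pw_poly N q
    rw [hq']
    refine ⟨MvPolynomial.C q', ?_⟩
    simp
  | add p q hp hq =>
    obtain ⟨K, hK⟩ := hp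
    obtain ⟨K', hK'⟩ := hq
    refine ⟨K + K', fun N ρ hρ => ?_⟩
    rw [map_add]
    exact ((hK N ρ hρ).mono (by push_cast; omega)).add ((hK' N ρ hρ).mono (by push_cast; omega))
  | mul_X p i hp =>
    obtain ⟨K, hK⟩ := hp
    refine ⟨K + (α + β + D), fun N ρ hρ => ?_⟩
    rw [map_mul]
    have hX : Dv (-((α + β + D : ℕ) : ℤ)) (theta α β N ρ (MvPolynomial.X i)) := by
      fin_cases i
      · change Dv _ (theta α β N ρ (MvPolynomial.X 0))
        rw [theta_X0]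
        exact ((Dv.T _).mul (Dv.X 0)).mono (by push_cast; omega)
      · change Dv _ (theta α β N ρ (MvPolynomial.X 1))
        rw [theta_X1, sub_eq_add_neg]
        refine ((Dv.T _).mul (((Dv.X 1).mono (M' := -(D : ℤ)) (by omega)).add hρ.dvR.neg)).mono ?_
        push_cast; omega
    refine ((hK N ρ hρ).mul hX).mono ?_
    push_cast; omega

theorem core (n : ℕ) (c : LP[X]) (α β D : ℕ) (hTH : S_TH) (f : P2 ℂ) (hf : Lim n c f) :
    ∃ K : ℕ, ∀ (N : ℕ) (ρ : LP[X]), Pole D ρ →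
      Nr (curv n (tw α β N c + ρ)) ((N : ℤ) - K) (theta α β N ρ (emb f)) := by
  obtain ⟨F, hF, H, hFH⟩ := hf
  obtain ⟨K, hK⟩ := theta_Dv α β D H
  refine ⟨K, fun N ρ hρ => ⟨theta α β N ρ F, hTH n α β N c ρ F hF, ?_⟩⟩
  have h1 : theta α β N ρ F - theta α β N ρ (emb f)
      = MvPolynomial.C (LaurentPolynomial.T (N : ℤ)) * theta α β N ρ H := by
    rw [hFH, map_add, map_mul, theta_C, Polynomial.toLaurent_X, pw_T, mul_one]
    ring
  rw [h1]
  have := (Dv.T (N : ℤ)).mul (hK N ρ hρ)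
  rwa [← sub_eq_add_neg] at this

theorem expand (κ n : ℕ) (ρ : LP[X]) (D : ℕ) (hκ : ∀ k < κ, ρ.coeff k = 0)
    (hn : ρ.natDegree < n) (hρ : Pole D ρ) (I : Ideal (P2 LP)) (M : ℤ) (p : ℕ × ℕ)
    (h : ∀ i, 1 ≤ i → i ≤ p.2 → ∀ e, κ * i ≤ e → e ≤ n * i → Nr I M (mu ρ (p.1 + e, p.2 - i))) :
    Nr I (M - D * p.2) (mon LP p - mu ρ p) := by
  set R : P2 LP := Polynomial.aeval (MvPolynomial.X 0 : P2 LP) ρ with hR
  set Z : P2 LP := MvPolynomial.X 1 - R with hZ
  have h1 : mon LP p - mu ρ p = ∑ i ∈ Finset.range p.2,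
      ∑ e ∈ Finset.range ((ρ ^ (i + 1)).natDegree + 1),
      (MvPolynomial.C ((ρ ^ (i + 1)).coeff e) * ((p.2.choose (i + 1) : ℕ) : P2 LP))
        * mu ρ (p.1 + e, p.2 - (i + 1)) := by
    have h2 : (MvPolynomial.X 1 : P2 LP) = R + Z := by rw [hZ]; ring
    have h3 : mon LP p = MvPolynomial.X 0 ^ p.1 * (R + Z) ^ p.2 := by
      rw [mon, h2]
    rw [h3, add_pow, Finset.sum_range_succ', mul_add, mu]
    simp only [pow_zero, Nat.sub_zero, one_mul, Nat.choose_zero_right, Nat.cast_one, mul_one]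
    rw [← hR, ← hZ, add_sub_cancel_right, Finset.mul_sum]
    refine Finset.sum_congr rfl fun i _ => ?_
    rw [hR, ← map_pow, aeval_sum, Finset.sum_mul, Finset.sum_mul, Finset.mul_sum]
    refine Finset.sum_congr rfl fun e _ => ?_
    rw [mu, ← hR, ← hZ]
    simp only [pow_add]
    ring
  rw [h1]
  refine Nr.sum _ fun i hi => Nr.sum _ fun e he => ?_
  rw [Finset.mem_range] at hi he
  by_cases hke : κ * (i + 1) ≤ e
  · have hdeg : (ρ ^ (i + 1)).natDegree ≤ n * (i + 1) := by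
      refine Polynomial.natDegree_pow_le.trans ?_
      rw [mul_comm]
      exact Nat.mul_le_mul hn.le le_rfl
    have h4 := h (i + 1) (by omega) (by omega) e hke (by omega)
    have h5 := ((hρ.pow (i + 1)).dv e).mul (Dv.natCast (p.2.choose (i + 1)))
    refine (Nr.mul h5 h4).mono ?_
    have h6 : (D * (i + 1) : ℕ) ≤ D * p.2 := Nat.mul_le_mul le_rfl (by omega)
    have h7 : ((D * (i + 1) : ℕ) : ℤ) ≤ (D : ℤ) * p.2 := by exact_mod_cast h6
    linarith
  · have h8 : (Polynomial.X : LP[X]) ^ (κ * (i + 1)) ∣ ρ ^ (i + 1) := by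
      rw [pow_mul]
      exact pow_dvd_pow_of_dvd (Polynomial.X_pow_dvd_iff.2 hκ) _
    rw [Polynomial.X_pow_dvd_iff.1 h8 e (by omega)]
    simpa using Nr.zero I _

end TWaux

open TWaux

theorem TW (hTH : S_TH) : S_TW := by
  intro n c S m₀ m' α β κ D B hc0 hκ hlim hlim0 hm0 hm' hw hst
  classical
  have hK : ∀ q : ℕ × ℕ, ∃ K : ℕ, (q ∉ S ∧ q ≠ m₀) → ∀ (N : ℕ) (ρ : LP[X]), Pole D ρ →
      Nr (curv n (tw α β N c + ρ)) ((N : ℤ) - K) (theta α β N ρ (emb (mon ℂ q))) := by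
    intro q
    by_cases hq : q ∉ S ∧ q ≠ m₀
    · obtain ⟨K, hK⟩ := core n c α β D hTH _ (hlim q hq.1 hq.2)
      exact ⟨K, fun _ => hK⟩
    · exact ⟨0, fun h => absurd h hq⟩
  choose K hK using hK
  obtain ⟨K₀, hK₀⟩ := core n c α β D hTH _ hlim0
  set B₁ : ℕ := B + m₀.1 + m₀.2 + m'.1 + m'.2 with hB₁
  set Km : ℕ := (Finset.range (B₁ + n * B₁ + 1) ×ˢ Finset.range (B₁ + 1)).sup K with hKm
  refine ⟨K₀ + Km + D * B₁ + 2, ?_⟩
  intro N hN ρ hρκ hρn hρ
  have hρ' : Pole D ρ := hρ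
  set I := curv n (tw α β N c + ρ) with hI
  -- near elements
  have hmu : ∀ q : ℕ × ℕ, q ∉ S → q ≠ m₀ → q.1 ≤ B₁ + n * B₁ → q.2 ≤ B₁ →
      Nr I ((N : ℤ) - Km) (mu ρ q) := by
    intro q hq1 hq2 hqb1 hqb2
    have h1 := hK q ⟨hq1, hq2⟩ N ρ hρ'
    have h2 : K q ≤ Km := by
      apply Finset.le_sup
      simp only [Finset.mem_product, Finset.mem_range]
      omega
    rw [emb_mon, theta_mon] at h1
    have h3 := Nr.mul (Dv.T ((α * q.1 + β * q.2 : ℕ) : ℤ)) h1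
    rw [← mul_assoc, ← map_mul, ← LaurentPolynomial.T_add] at h3
    simp only [add_neg_cancel, LaurentPolynomial.T_zero, map_one, one_mul] at h3
    refine h3.mono ?_
    push_cast
    have : (0 : ℤ) ≤ α * q.1 + β * q.2 := by positivity
    have h4 : (K q : ℤ) ≤ Km := by exact_mod_cast h2
    linarith
  have hexp : ∀ p : ℕ × ℕ, (p ∉ S ∨ p = m') → p.1 ≤ B₁ → p.2 ≤ B₁ →
      Nr I ((N : ℤ) - Km - D * B₁) (mon LP p - mu ρ p) := by
    intro p hp hp1 hp2
    refine (expand κ n ρ D hρκ hρn hρ' I ((N : ℤ) - Km) p ?_).mono ?_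
    · intro i hi1 hi2 e he1 he2
      obtain ⟨h1, h2⟩ := hst p hp i hi1 hi2 e he1
      refine hmu _ h1 h2 ?_ ?_
      · have : n * i ≤ n * B₁ := Nat.mul_le_mul le_rfl (by omega)
        simp only
        omega
      · simp only; omega
    · have : (D : ℤ) * p.2 ≤ D * B₁ := by
        have : D * p.2 ≤ D * B₁ := Nat.mul_le_mul le_rfl hp2
        exact_mod_cast this
      linarith
  have hNZ : (K₀ : ℤ) + Km + D * B₁ + 2 ≤ N := by exact_mod_cast hN
  have hDB : (0 : ℤ) ≤ (D : ℤ) * B₁ := by positivity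
  refine ⟨?_, ?_⟩
  · intro p hp1 hp2 hpB1 hpB2
    have h1 := hmu p hp1 hp2 (by nlinarith [Nat.zero_le (n * B₁)]) (by omega)
    have h2 := hexp p (Or.inl hp1) (by omega) (by omega)
    have h3 := (h1.mono (M' := 1) (by linarith)).add (h2.mono (M' := 1) (by linarith))
    rw [add_sub_cancel] at h3
    obtain ⟨G, hG, H, hH⟩ := h3
    refine ⟨emb (mon ℂ p) + MvPolynomial.C X * H, ?_, H, rfl⟩
    rw [fam, Ideal.mem_comap]
    have h4 : (MvPolynomial.map (Polynomial.toLaurent : ℂ[X] →+* LP))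
        (emb (mon ℂ p) + MvPolynomial.C X * H) = G := by
      rw [map_add, map_mul, MvPolynomial.map_C, emb_mon]
      change _ + MvPolynomial.C (Polynomial.toLaurent X) * _ = _
      rw [Polynomial.toLaurent_X, ← hH]
      have : (MvPolynomial.map (Polynomial.toLaurent : ℂ[X] →+* LP)) (mon ℂ[X] p) = mon LP p := by
        simp [mon]
      rw [this]; ring
    rw [h4]
    exact hG
  · have h1 := hK₀ N ρ hρ'
    rw [map_add, emb_mon, emb_mon, map_add, theta_mon, theta_mon] at h1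
    have h3 := Nr.mul (Dv.T ((α * m₀.1 + β * m₀.2 : ℕ) : ℤ)) h1
    rw [mul_add, ← mul_assoc, ← mul_assoc, ← map_mul, ← map_mul, ← LaurentPolynomial.T_add,
      ← LaurentPolynomial.T_add] at h3
    have h4 : ((α * m₀.1 + β * m₀.2 : ℕ) : ℤ) + -((α * m'.1 + β * m'.2 : ℕ) : ℤ) = 1 := by
      rw [hw]; push_cast; ring
    rw [h4] at h3
    simp only [add_neg_cancel, LaurentPolynomial.T_zero, map_one, one_mul] at h3
    have h5 := hexp m₀ (Or.inl hm0) (by omega) (by omega)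
    have h6 := Nr.mul (Dv.T 1) (hexp m' (Or.inr rfl) (by omega) (by omega))
    have h7 := ((h3.mono (M' := 2) (by
      have : (0 : ℤ) ≤ ((α * m₀.1 + β * m₀.2 : ℕ) : ℤ) := by positivity
      linarith)).add (h5.mono (M' := 2) (by linarith))).add (h6.mono (M' := 2) (by linarith))
    obtain ⟨G, hG, H, hH⟩ := h7
    refine ⟨emb (mon ℂ m₀) + MvPolynomial.C X * emb (mon ℂ m') + MvPolynomial.C (X ^ 2) * H,
      ?_, H, rfl⟩
    rw [fam, Ideal.mem_comap]
    have h8 : (MvPolynomial.map (Polynomial.toLaurent : ℂ[X] →+* LP))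
        (emb (mon ℂ m₀) + MvPolynomial.C X * emb (mon ℂ m') + MvPolynomial.C (X ^ 2) * H) = G := by
      have hmm : ∀ p, (MvPolynomial.map (Polynomial.toLaurent : ℂ[X] →+* LP)) (mon ℂ[X] p)
          = mon LP p := by
        intro p; simp [mon]
      rw [map_add, map_add, map_mul, map_mul, MvPolynomial.map_C, MvPolynomial.map_C, emb_mon,
        emb_mon, hmm, hmm]
      change _ + MvPolynomial.C (Polynomial.toLaurent X) * _
        + MvPolynomial.C (Polynomial.toLaurent (X ^ 2)) * _ = _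
      rw [Polynomial.toLaurent_X, Polynomial.toLaurent_X_pow]
      have h9 : G = (mu ρ m₀ + MvPolynomial.C (LaurentPolynomial.T 1) * mu ρ m'
          + (mon LP m₀ - mu ρ m₀) + MvPolynomial.C (LaurentPolynomial.T 1)
            * (mon LP m' - mu ρ m')) + MvPolynomial.C (LaurentPolynomial.T 2) *
              MvPolynomial.map (Polynomial.toLaurent : ℂ[X] →+* LP) H := by
        rw [← hH]; ring
      rw [h9]
      push_cast
      ring
    rw [h8]
    exact hG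

end HR
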